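import Pool.Agent.H.MP_ad013a_pr.h63s.Top

/-!
# Fair letters are minimal up to an error of 0.033
-/

open Filter Topology

theorem Pool.Agent.Results.MP_ad013a_pr.AlmostMinimal.result :
    ∃ C : ℝ, Tendsto (fun n : ℕ => Pool.Agent.ad013a.EL (1 / 2) n / n) atTop (𝓝 C) ∧
      ∀ p : ℝ, 0 ≤ p → p ≤ 1 →
        ∃ D : ℝ, Tendsto (fun n : ℕ => Pool.Agent.ad013a.EL p n / n) atTop (𝓝 D) ∧
          0.7874 < D ∧ C < D + 0.033 :=
  Pool.Agent.ad013a.AMT.almost_minimal
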