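import Pool.Agent.H.MP_ad013a_pr.h63r.Top

/-!
# Fair letters are worse than letters with `|p - 1/2| ≥ 0.175`
-/

open Filter Topology

theorem Pool.Agent.Results.MP_ad013a_pr.Q2Range.result :
    ∃ C : ℝ, Tendsto (fun n : ℕ => Pool.Agent.ad013a.EL (1 / 2) n / n) atTop (𝓝 C) ∧
      ∀ p : ℝ, 0 ≤ p → p ≤ 1 → 7 / 40 ≤ |p - 1 / 2| →
        ∃ D : ℝ, Tendsto (fun n : ℕ => Pool.Agent.ad013a.EL p n / n) atTop (𝓝 D) ∧ C < D :=
  Pool.Agent.ad013a.fair_lt
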