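import Pool.Agent.H.MP_ad013a_pr.h63w.Top

/-!
# An upper bound for the Chvatal-Sankoff constant of fair binary words
-/

open Filter Topology

theorem Pool.Agent.Results.MP_ad013a_pr.UpperHalf.result :
    ∃ C : ℝ, Tendsto (fun n : ℕ => Pool.Agent.ad013a.EL (1 / 2) n / n) atTop (𝓝 C) ∧
      C < 0.8204 :=
  Pool.Agent.ad013a.upperW
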